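import Pool.Agent.helper96.PP2.SpecA

/-! # pg:H2U: upper bound for H^2 of a uniform group -/

namespace Pool.Agent.PP2

open Topology Matrix

theorem H2U_row (hINF : INF_stmt) : H2U_stmt := by
  intro p U _ _ _ _ F d hp hp2 hU hidx
  have hnz : NeZero p := ⟨hp.ne_zero⟩
  have hfinF : Finite (Fp p) := inferInstanceAs (Finite (ZMod p))
  have hcF : Nat.card (Fp p) = p := Nat.card_zmod p
  have hQ : Nat.card (U ⧸ F 1) = p ^ d := hidx
  have hfinQ : Finite (U ⧸ F 1) := Nat.finite_of_card_ne_zero (by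
    rw [hQ]
    exact pow_ne_zero _ hp.ne_zero)
  let S : Set (U → U → Fp p) := {f' | f' ∈ Z2 U (Fp p) ∧
    ∀ x y : U, ∀ v ∈ F 1, ∀ w ∈ F 1, f' (x * v) (y * w) = f' x y}
  let Φ : S → ((U ⧸ F 1) × (U ⧸ F 1) → Fp p) := fun f q => f.1 q.1.out q.2.out
  have hΦ : Function.Injective Φ := by
    intro f g h
    apply Subtype.ext
    funext x y
    obtain ⟨v, hv⟩ := QuotientGroup.mk_out_eq_mul (F 1) x
    obtain ⟨w, hw⟩ := QuotientGroup.mk_out_eq_mul (F 1) y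
    have h1 : f.1 ((x : U ⧸ F 1)).out ((y : U ⧸ F 1)).out = g.1 ((x : U ⧸ F 1)).out ((y : U ⧸ F 1)).out :=
      congrFun h ((x : U ⧸ F 1), (y : U ⧸ F 1))
    rw [hv, hw, f.2.2 x y v v.2 w w.2, g.2.2 x y v v.2 w w.2] at h1
    exact h1
  have hfinS : Finite S := Finite.of_injective Φ hΦ
  have hS : Nat.card S ≤ p ^ (p ^ (2 * d)) := by
    refine (Nat.card_le_card_of_injective Φ hΦ).trans_eq ?_
    rw [Nat.card_fun, Nat.card_prod, hcF, hQ, ← pow_add, two_mul]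
  let Ψ : S → ((Z2 U (Fp p)) ⧸ (B2 U (Fp p)).addSubgroupOf (Z2 U (Fp p))) := fun f =>
    QuotientAddGroup.mk ⟨f.1, f.2.1⟩
  have hΨ : Function.Surjective Ψ := by
    intro y
    obtain ⟨f, rfl⟩ := QuotientAddGroup.mk_surjective y
    obtain ⟨f', hf', hB, hinv⟩ := hINF p U F hp hp2 hU f.1 f.2
    refine ⟨⟨f', hf', hinv⟩, ?_⟩
    apply QuotientAddGroup.eq.2
    rw [AddSubgroup.mem_addSubgroupOf]
    have e : ((-(⟨f', hf'⟩ : Z2 U (Fp p)) + f : Z2 U (Fp p)) : U → U → Fp p) = f.1 - f' := by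
      change -f' + f.1 = f.1 - f'
      rw [neg_add_eq_sub]
    change ((-(⟨f', hf'⟩ : Z2 U (Fp p)) + f : Z2 U (Fp p)) : U → U → Fp p) ∈ B2 U (Fp p)
    rw [e]
    exact hB
  have hfin : Finite ((Z2 U (Fp p)) ⧸ (B2 U (Fp p)).addSubgroupOf (Z2 U (Fp p))) :=
    Finite.of_surjective Ψ hΨ
  have hh2 : h2 U (Fp p) = Nat.card ((Z2 U (Fp p)) ⧸ (B2 U (Fp p)).addSubgroupOf (Z2 U (Fp p))) := rfl
  rw [hh2]
  refine ⟨?_, (Nat.card_le_card_of_surjective Ψ hΨ).trans hS⟩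
  exact Nat.card_pos.ne'

end Pool.Agent.PP2
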