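import Pool.Agent.helper96.PP2.SpecA

/-! # pg:ISO: transport of the vanishing of H^3 along an isomorphism of topological groups -/

namespace Pool.Agent.PP2

open Topology Matrix

theorem ISO_row : ISO_stmt := by
  intro p G H _ _ _ _ e hG A _ _ hfin hcard hsm f hf hd
  let e' : G →* H := e.toMulEquiv.toMonoidHom
  let _i : DistribMulAction G A := DistribMulAction.compHom A e'
  have hsm' : Smooth G A := by
    intro a
    exact (hsm a).preimage e.continuous_toFun
  have hact : ∀ (g : G) (a : A), g • a = e g • a := fun g a => rfl
  obtain ⟨h, hh, hh'⟩ := hG A hfin hcard hsm' (fun a b c => f (e a) (e b) (e c))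
    (by
      have h1 : Continuous (fun x : G × G × G => (e x.1, e x.2.1, e x.2.2)) := by
        have := e.continuous_toFun
        fun_prop
      exact hf.comp_continuous h1)
    (by
      intro a b c d
      have h1 := hd (e a) (e b) (e c) (e d)
      simp only [d3, hact, map_mul] at h1 ⊢
      exact h1)
  refine ⟨fun a b => h (e.symm a) (e.symm b), ?_, ?_⟩
  · have h1 : Continuous (fun x : H × H => (e.symm x.1, e.symm x.2)) := by
      have := e.symm.continuous_toFun
      fun_prop
    exact hh.comp_continuous h1
  · intro a b c
    have h1 := hh' (e.symm a) (e.symm b) (e.symm c)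
    simp only [d2, hact, ContinuousMulEquiv.apply_symm_apply] at h1 ⊢
    rw [h1, map_mul, map_mul]

end Pool.Agent.PP2
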