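import Pool.Agent.helper96.PP2.SpecC

/-! # pg:JNI: the ideal of topologically nilpotent elements -/

namespace Pool.Agent.PP2

open Topology Matrix

theorem JNI_finite {R : Type} [CommRing R] [TopologicalSpace R] [IsTopologicalRing R] [CompactSpace R]
    (I : Ideal R) (hI : IsOpen (I : Set R)) : Finite (R ⧸ I) := by
  have h1 : Finite (R ⧸ I.toAddSubgroup) := AddSubgroup.quotient_finite_of_isOpen I.toAddSubgroup hI
  let Φ : R ⧸ I.toAddSubgroup → R ⧸ I := Quotient.lift (fun x : R => Ideal.Quotient.mk I x) (by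
    intro a b h
    have h2 : -a + b ∈ I.toAddSubgroup := QuotientAddGroup.leftRel_apply.1 h
    have h3 : -a + b ∈ I := h2
    symm
    rw [Ideal.Quotient.eq]
    have e : b - a = -a + b := by ring
    rw [e]
    exact h3)
  refine Finite.of_surjective Φ ?_
  intro y
  obtain ⟨x, rfl⟩ := Ideal.Quotient.mk_surjective y
  exact ⟨Quotient.mk _ x, rfl⟩

theorem JNI_row : JNI_stmt := by
  intro R _ _ _ _ _
  refine ⟨⨅ I : {I : Ideal R // IsOpen (I : Set R)}, I.1.radical, ?_, ?_, ?_⟩
  · intro x
    rw [Ideal.mem_iInf]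
    constructor
    · intro h I hI
      exact h ⟨I, hI⟩
    · intro h I
      exact h I.1 I.2
  · rw [Submodule.coe_iInf]
    apply isClosed_iInter
    intro I
    have h1 : IsOpen (I.1.radical.toAddSubgroup : Set R) := by
      apply AddSubgroup.isOpen_mono (H₁ := I.1.toAddSubgroup)
      · intro x hx
        exact Ideal.le_radical hx
      · exact I.2
    exact AddSubgroup.isClosed_of_isOpen _ h1
  · intro I hI
    have hfin := JNI_finite I hI
    have hN : IsNoetherianRing (R ⧸ I) := inferInstance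
    obtain ⟨n, hn⟩ := Ideal.exists_radical_pow_le_of_fg (⊥ : Ideal (R ⧸ I)) (IsNoetherian.noetherian _)
    refine ⟨n, ?_⟩
    set J : Ideal R := ⨅ I : {I : Ideal R // IsOpen (I : Set R)}, I.1.radical with hJ
    have h1 : J.map (Ideal.Quotient.mk I) ≤ (⊥ : Ideal (R ⧸ I)).radical := by
      rw [Ideal.map_le_iff_le_comap]
      intro x hx
      rw [hJ, Ideal.mem_iInf] at hx
      obtain ⟨m, hm⟩ := hx ⟨I, hI⟩
      rw [Ideal.mem_comap]
      refine ⟨m, ?_⟩
      rw [Ideal.mem_bot, ← map_pow, Ideal.Quotient.eq_zero_iff_mem]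
      exact hm
    intro x hx
    have h2 : Ideal.Quotient.mk I x ∈ (J ^ n).map (Ideal.Quotient.mk I) := Ideal.mem_map_of_mem _ hx
    rw [Ideal.map_pow] at h2
    have h3 := hn (Ideal.pow_right_mono h1 n h2)
    rw [Ideal.mem_bot, Ideal.Quotient.eq_zero_iff_mem] at h3
    exact h3

end Pool.Agent.PP2
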