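import Pool.Agent.helper96.PP2.SpecA

/-! # pg:SHF: the shifted filtration -/

namespace Pool.Agent.PP2

open Topology Matrix

theorem SHF_row : SHF_stmt := by
  intro p U _ _ _ F hU n
  have hmem : ∀ (j : ℕ) (x : F n), x ∈ (F (n + j)).subgroupOf (F n) ↔ (x : U) ∈ F (n + j) := fun j x =>
    Subgroup.mem_subgroupOf
  refine ⟨?_, ?_, ?_, ?_, ?_, ?_, ?_, ?_, ?_⟩
  · rw [add_zero, Subgroup.subgroupOf_self]
  · intro i j hij x hx
    change x ∈ (F (n + j)).subgroupOf (F n) at hx
    change x ∈ (F (n + i)).subgroupOf (F n)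
    rw [hmem] at hx ⊢
    exact hU.anti (by omega) hx
  · intro j
    exact (hU.op (n + j)).preimage continuous_subtype_val
  · intro j
    have := hU.nor (n + j)
    exact Subgroup.normal_subgroupOf
  · intro V hV
    rw [nhds_subtype_eq_comap] at hV
    obtain ⟨W, hW, hWV⟩ := hV
    obtain ⟨j, hj⟩ := hU.basis W hW
    refine ⟨j, ?_⟩
    intro x hx
    apply hWV
    apply hj
    have h1 : (x : U) ∈ F (n + j) := (hmem j x).1 hx
    exact hU.anti (by omega) h1
  · intro j x hx y hy
    change x * y * x⁻¹ * y⁻¹ ∈ (F (n + (j + 2))).subgroupOf (F n)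
    have hx' := (hmem j x).1 hx
    have hy' := (hmem j y).1 hy
    rw [hmem]
    exact hU.com (n + j) _ hx' _ hy'
  · intro j x hx
    have hx' := (hmem j x).1 hx
    change x ^ p ∈ (F (n + (j + 1))).subgroupOf (F n)
    rw [hmem]
    exact hU.pow (n + j) _ hx'
  · intro x y h
    apply Subtype.ext
    apply hU.inj
    exact congrArg Subtype.val h
  · intro j y hy
    change y ∈ (F (n + (j + 1))).subgroupOf (F n) at hy
    rw [hmem] at hy
    obtain ⟨x, hx, hxy⟩ := hU.root (n + j) (y : U) hy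
    refine ⟨⟨x, hU.anti (by omega) hx⟩, (hmem j _).2 hx, Subtype.ext hxy⟩

end Pool.Agent.PP2
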